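import Pool.Agent.H60.Flow.Cube

/-!
# A Hilbert-Schmidt inequality for compressions of multiplication operators on the cube

`hs`: if `h j` are orthonormal functions whose Fourier coefficients vanish outside the family `SS`
then the sum of the squares of the `av (v * h j ^ 2)` is at most the squared Hilbert-Schmidt norm
`∑ S ∈ SS, ∑ S' ∈ SS, hat v (S ∆ S') ^ 2` of the compression of the multiplication by `v`.

`count`, `count_le`: the evaluation of this norm when `SS` is the family of the complements of the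
members of `I`.
-/

set_option autoImplicit false
set_option linter.unusedSectionVars false

open Finset

namespace Pool.Agent.H61.Chv

open Pool.Agent.H60.Flow

variable {ι : Type*} [Fintype ι] [DecidableEq ι]

theorem ch_eq_prod (T A : Finset ι) : ch T A = ∏ i, if i ∈ T then sg A i else 1 := by
  unfold ch
  rw [Finset.prod_ite_mem, Finset.univ_inter]

theorem ch_mul (S T A : Finset ι) : ch S A * ch T A = ch (symmDiff S T) A := by
  rw [ch_eq_prod, ch_eq_prod, ch_eq_prod, ← Finset.prod_mul_distrib]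
  refine Finset.prod_congr rfl fun i _ => ?_
  by_cases h1 : i ∈ S <;> by_cases h2 : i ∈ T <;> simp [Finset.mem_symmDiff, h1, h2, sg_sq]

/-- Polarised Parseval identity. -/
theorem parseval_mul (f g : Finset ι → ℝ) :
    ∑ T, hat f T * hat g T = av (fun A => f A * g A) := by
  have h1 := parseval (fun A => f A + g A)
  have h2 := parseval (fun A => f A - g A)
  have h3 : ∑ T, hat f T * hat g T =
      (∑ T, hat (fun A => f A + g A) T ^ 2 - ∑ T, hat (fun A => f A - g A) T ^ 2) / 4 := by
    rw [← Finset.sum_sub_distrib, Finset.sum_div]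
    refine Finset.sum_congr rfl fun T _ => ?_
    rw [hat_add, hat_sub]
    ring
  have h4 : av (fun A => f A * g A) =
      (av (fun A => (f A + g A) ^ 2) - av (fun A => (f A - g A) ^ 2)) / 4 := by
    rw [← av_sub, div_eq_mul_inv, ← av_mul_right]
    exact av_congr fun A => by ring
  rw [h3, h4, h1, h2]

theorem hat_mul_ch (v : Finset ι → ℝ) (S T : Finset ι) :
    hat (fun A => v A * ch T A) S = hat v (symmDiff S T) := by
  unfold hat
  refine av_congr fun A => ?_
  rw [← ch_mul]
  ring

/-- The quadratic form of the multiplication by `v` in Fourier coefficients. -/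
theorem av_mul_sq (SS : Finset (Finset ι)) (v h : Finset ι → ℝ)
    (h0 : ∀ S, S ∉ SS → hat h S = 0) :
    av (fun Y => v Y * h Y ^ 2) =
      ∑ S ∈ SS, ∑ S' ∈ SS, hat v (symmDiff S S') * (hat h S * hat h S') := by
  have e1 : av (fun Y => v Y * h Y ^ 2) = ∑ S, hat h S * hat (fun Y => v Y * h Y) S := by
    rw [parseval_mul]
    exact av_congr fun Y => by ring
  have e2 : ∀ S, hat (fun Y => v Y * h Y) S = ∑ S', hat v (symmDiff S S') * hat h S' := by
    intro S
    have : hat (fun Y => v Y * h Y) S = av (fun Y => (v Y * ch S Y) * h Y) := by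
      unfold hat
      exact av_congr fun Y => by ring
    rw [this, ← parseval_mul]
    refine Finset.sum_congr rfl fun S' _ => ?_
    rw [hat_mul_ch, symmDiff_comm]
  have e3 : ∀ g : Finset ι → ℝ, (∀ S, S ∉ SS → g S = 0) → ∑ S, g S = ∑ S ∈ SS, g S := by
    intro g hg
    exact (Finset.sum_subset (Finset.subset_univ SS) fun S _ hS => hg S hS).symm
  rw [e1, e3 _ (fun S hS => by rw [h0 S hS, zero_mul])]
  refine Finset.sum_congr rfl fun S _ => ?_
  rw [e2, e3 _ (fun S' hS' => by rw [h0 S' hS', mul_zero]), Finset.mul_sum]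
  exact Finset.sum_congr rfl fun S' _ => by ring

/-- The Hilbert-Schmidt inequality. -/
theorem hs {J : Type*} [Fintype J] [DecidableEq J] (SS : Finset (Finset ι)) (v : Finset ι → ℝ)
    (h : J → Finset ι → ℝ) (h0 : ∀ j, ∀ S, S ∉ SS → hat (h j) S = 0)
    (h1 : ∀ j j', av (fun Y => h j Y * h j' Y) = if j = j' then 1 else 0) :
    ∑ j, (av (fun Y => v Y * h j Y ^ 2)) ^ 2 ≤
      ∑ S ∈ SS, ∑ S' ∈ SS, hat v (symmDiff S S') ^ 2 := by
  set a : J → ℝ := fun j => av (fun Y => v Y * h j Y ^ 2) with ha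
  set M : Finset ι → Finset ι → ℝ := fun S S' => hat v (symmDiff S S') with hM
  set c : J → Finset ι → ℝ := fun j S => hat (h j) S with hc
  have hA : ∀ j, a j = ∑ S ∈ SS, ∑ S' ∈ SS, M S S' * (c j S * c j S') := fun j =>
    av_mul_sq SS v (h j) (h0 j)
  have hO : ∀ j j', ∑ S ∈ SS, c j S * c j' S = if j = j' then 1 else 0 := by
    intro j j'
    rw [← h1 j j', ← parseval_mul]
    exact Finset.sum_subset (Finset.subset_univ SS) fun S _ hS => by
      show hat (h j) S * hat (h j') S = 0
      rw [h0 j S hS, zero_mul]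
  have key : 0 ≤ ∑ S ∈ SS, ∑ S' ∈ SS, (M S S' - ∑ j, a j * (c j S * c j S')) ^ 2 :=
    Finset.sum_nonneg fun S _ => Finset.sum_nonneg fun S' _ => sq_nonneg _
  have ex : ∑ S ∈ SS, ∑ S' ∈ SS, (M S S' - ∑ j, a j * (c j S * c j S')) ^ 2 =
      ∑ S ∈ SS, ∑ S' ∈ SS, M S S' ^ 2
        - 2 * ∑ S ∈ SS, ∑ S' ∈ SS, M S S' * ∑ j, a j * (c j S * c j S')
        + ∑ S ∈ SS, ∑ S' ∈ SS, (∑ j, a j * (c j S * c j S')) ^ 2 := by
    simp only [Finset.mul_sum (s := SS)]
    rw [← Finset.sum_sub_distrib, ← Finset.sum_add_distrib]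
    refine Finset.sum_congr rfl fun S _ => ?_
    rw [← Finset.sum_sub_distrib, ← Finset.sum_add_distrib]
    exact Finset.sum_congr rfl fun S' _ => by ring
  have e1 : ∑ S ∈ SS, ∑ S' ∈ SS, M S S' * ∑ j, a j * (c j S * c j S') = ∑ j, a j ^ 2 := by
    have : ∀ S ∈ SS, ∑ S' ∈ SS, M S S' * ∑ j, a j * (c j S * c j S') =
        ∑ j, a j * ∑ S' ∈ SS, M S S' * (c j S * c j S') := by
      intro S _
      simp only [Finset.mul_sum]
      rw [Finset.sum_comm]
      exact Finset.sum_congr rfl fun j _ => Finset.sum_congr rfl fun S' _ => by ring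
    rw [Finset.sum_congr rfl this, Finset.sum_comm]
    refine Finset.sum_congr rfl fun j _ => ?_
    rw [← Finset.mul_sum, ← hA j, sq]
  have e2 : ∑ S ∈ SS, ∑ S' ∈ SS, (∑ j, a j * (c j S * c j S')) ^ 2 = ∑ j, a j ^ 2 := by
    have s1 : ∀ S ∈ SS, ∀ S' ∈ SS, (∑ j, a j * (c j S * c j S')) ^ 2 =
        ∑ j, ∑ j', (a j * a j') * ((c j S * c j' S) * (c j S' * c j' S')) := by
      intro S _ S' _
      rw [sq, Finset.sum_mul_sum]
      exact Finset.sum_congr rfl fun j _ => Finset.sum_congr rfl fun j' _ => by ring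
    rw [Finset.sum_congr rfl fun S hS => Finset.sum_congr rfl fun S' hS' => s1 S hS S' hS']
    have s2 : ∀ S ∈ SS, ∑ S' ∈ SS, ∑ j, ∑ j', (a j * a j') * ((c j S * c j' S) * (c j S' * c j' S'))
        = ∑ j, ∑ j', (a j * a j') * ((c j S * c j' S) * ∑ S' ∈ SS, c j S' * c j' S') := by
      intro S _
      rw [Finset.sum_comm]
      refine Finset.sum_congr rfl fun j _ => ?_
      rw [Finset.sum_comm]
      refine Finset.sum_congr rfl fun j' _ => ?_
      simp only [Finset.mul_sum]
    rw [Finset.sum_congr rfl s2, Finset.sum_comm]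
    refine Finset.sum_congr rfl fun j _ => ?_
    rw [Finset.sum_comm]
    have s3 : ∀ j', ∑ S ∈ SS, (a j * a j') * ((c j S * c j' S) * ∑ S' ∈ SS, c j S' * c j' S') =
        if j = j' then a j * a j' else 0 := by
      intro j'
      rw [← Finset.mul_sum, ← Finset.sum_mul, hO]
      split_ifs <;> ring
    rw [Finset.sum_congr rfl fun j' _ => s3 j', Finset.sum_ite_eq]
    simp [sq]
  rw [ex, e1, e2] at key
  linarith

theorem compl_symmDiff_left (S T : Finset ι) : (symmDiff S T)ᶜ = symmDiff Sᶜ T := by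
  ext x
  simp only [Finset.mem_compl, Finset.mem_symmDiff]
  tauto

/-- The Hilbert-Schmidt norm as a count. -/
theorem count (I : Finset (Finset ι)) (v : Finset ι → ℝ) :
    ∑ S ∈ univ.filter (fun S : Finset ι => Sᶜ ∈ I),
      ∑ S' ∈ univ.filter (fun S : Finset ι => Sᶜ ∈ I), hat v (symmDiff S S') ^ 2 =
      ∑ T, hat v T ^ 2 * ((I.filter (fun B => symmDiff B T ∈ I)).card : ℝ) := by
  have e1 : ∀ S : Finset ι,
      ∑ S' ∈ univ.filter (fun S : Finset ι => Sᶜ ∈ I), hat v (symmDiff S S') ^ 2 =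
      ∑ T, if symmDiff Sᶜ T ∈ I then hat v T ^ 2 else 0 := by
    intro S
    rw [Finset.sum_filter]
    rw [← Equiv.sum_comp (Equiv.mk (fun T : Finset ι => symmDiff S T) (fun T => symmDiff S T)
      (fun A => by simp) (fun A => by simp))]
    refine Finset.sum_congr rfl fun T _ => ?_
    simp only [Equiv.coe_fn_mk, compl_symmDiff_left, symmDiff_symmDiff_cancel_left]
  simp only [e1]
  rw [Finset.sum_filter]
  rw [← Equiv.sum_comp (Equiv.mk (fun A : Finset ι => Aᶜ) (fun A => Aᶜ) (fun A => compl_compl A)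
    (fun A => compl_compl A))]
  simp only [Equiv.coe_fn_mk, compl_compl]
  rw [← Finset.sum_filter, Finset.filter_mem_eq_inter, Finset.univ_inter, Finset.sum_comm]
  refine Finset.sum_congr rfl fun T _ => ?_
  rw [← Finset.sum_filter, Finset.sum_const, nsmul_eq_mul, mul_comm]

/-- Exactly one of `B` and `B ∆ T` contains a given element of `T`. -/
theorem count_le (I : Finset (Finset ι)) (T : Finset ι) (i : ι) (hi : i ∈ T) :
    (I.filter (fun B => symmDiff B T ∈ I)).card ≤ 2 * (I.filter (fun B => i ∈ B)).card := by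
  have h1 : (I.filter (fun B => symmDiff B T ∈ I)) =
      (I.filter (fun B => symmDiff B T ∈ I)).filter (fun B => i ∈ B) ∪
      (I.filter (fun B => symmDiff B T ∈ I)).filter (fun B => ¬ i ∈ B) :=
    (Finset.filter_union_filter_not_eq _ _).symm
  rw [h1]
  refine (Finset.card_union_le _ _).trans ?_
  have h2 : ((I.filter (fun B => symmDiff B T ∈ I)).filter (fun B => i ∈ B)).card ≤
      (I.filter (fun B => i ∈ B)).card := by
    refine Finset.card_le_card fun B hB => ?_
    simp only [Finset.mem_filter] at hB ⊢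
    exact ⟨hB.1.1, hB.2⟩
  have h3 : ((I.filter (fun B => symmDiff B T ∈ I)).filter (fun B => ¬ i ∈ B)).card ≤
      (I.filter (fun B => i ∈ B)).card := by
    refine Finset.card_le_card_of_injOn (fun B => symmDiff B T) ?_ ?_
    · intro B hB
      simp only [Finset.coe_filter, Finset.mem_filter, Set.mem_ofPred_eq] at hB ⊢
      exact ⟨hB.1.2, Finset.mem_symmDiff.2 (Or.inr ⟨hi, hB.2⟩)⟩
    · intro B _ B' _ hBB'
      exact symmDiff_left_injective T hBB'
  omega

end Pool.Agent.H61.Chv
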