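import Pool.Agent.H61.Chv.Fam
import Pool.Agent.H60.Flow.Cor

/-!
# The core inequality

For a down-closed family `I` and a monotone `v`,
`∑ y ∈ I, max (v y) 0 ^ 2 + ∑ y ∈ I, max (-v yᶜ) 0 ^ 2` is at most
`∑ T, hat v T ^ 2 * #{B ∈ I : B ∆ T ∈ I}`.
-/

set_option autoImplicit false
set_option linter.unusedSectionVars false

open Finset

namespace Pool.Agent.H61.Chv

open Pool.Agent.H60.Flow

section

variable {ι : Type*} [Fintype ι] [DecidableEq ι]

theorem core_hat (I : Finset (Finset ι)) (hI : ∀ A B, A ⊆ B → B ∈ I → A ∈ I)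
    (v : Finset ι → ℝ) (hv : Monotone v) :
    ∑ y ∈ I, (max (v y) 0) ^ 2 + ∑ y ∈ I, (max (-(v yᶜ)) 0) ^ 2 ≤
      ∑ T, hat v T ^ 2 * ((I.filter (fun B => symmDiff B T ∈ I)).card : ℝ) := by
  classical
  set w : Finset ι → ℝ := fun Y => -(v Yᶜ) with hw
  have hwm : Monotone w := by
    intro A B hAB
    exact neg_le_neg (hv (Finset.compl_subset_compl.2 hAB))
  set P := I.filter (fun y => 0 < v y) with hPdef
  set Q := I.filter (fun y => 0 < w y) with hQdef
  obtain ⟨h, h1, h2, h3, h4⟩ := exists_family I hI v hv P (Finset.filter_subset _ _)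
  obtain ⟨g, g1, g2, g3, g4⟩ := exists_family I hI w hwm Q (Finset.filter_subset _ _)
  have hPpos : ∀ y ∈ P, 0 < v y := fun y hy => (Finset.mem_filter.1 hy).2
  have hQpos : ∀ y ∈ Q, 0 < w y := fun y hy => (Finset.mem_filter.1 hy).2
  let F : P ⊕ Q → Finset ι → ℝ := Sum.elim (fun y Y => h y.1 Y) (fun y Y => g y.1 Yᶜ)
  have hcross : ∀ (y : P) (y' : Q) (Y : Finset ι), h y.1 Y * g y'.1 Yᶜ = 0 := by
    intro y y' Y
    rcases lt_or_ge (v Y) (v y.1) with hlt | hge
    · rw [h1 y.1 y.2 Y hlt, zero_mul]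
    · have hy := hPpos y.1 y.2
      have hy' := hQpos y'.1 y'.2
      have : w Yᶜ < w y'.1 := by
        have e : w Yᶜ = - v Y := by simp [hw]
        rw [e]; linarith
      rw [g1 y'.1 y'.2 _ this, mul_zero]
  have key := hs (J := P ⊕ Q) (univ.filter (fun S : Finset ι => Sᶜ ∈ I)) v F (by
      intro j S hS
      have hS' : Sᶜ ∉ I := by simpa using hS
      rcases j with y | y
      · exact h2 y.1 y.2 S hS'
      · show hat (fun Y => g y.1 Yᶜ) S = 0
        rw [hat_compl, g2 y.1 y.2 S hS', mul_zero]) (by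
      intro j j'
      rcases j with y | y <;> rcases j' with y' | y'
      · show av (fun Y => h y.1 Y * h y'.1 Y) = _
        by_cases hyy : y = y'
        · subst hyy
          rw [if_pos rfl, ← h3 y.1 y.2]
          exact av_congr fun Y => by ring
        · rw [if_neg (fun e => hyy (Sum.inl.inj e))]
          exact h4 y.1 y.2 y'.1 y'.2 (fun e => hyy (Subtype.ext e))
      · show av (fun Y => h y.1 Y * g y'.1 Yᶜ) = _
        rw [if_neg (by simp), av_congr (hcross y y'), av_const]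
      · show av (fun Y => g y.1 Yᶜ * h y'.1 Y) = _
        rw [if_neg (by simp)]
        have : ∀ Y, g y.1 Yᶜ * h y'.1 Y = 0 := fun Y => by rw [mul_comm]; exact hcross y' y Y
        rw [av_congr this, av_const]
      · show av (fun Y => g y.1 Yᶜ * g y'.1 Yᶜ) = _
        rw [av_compl (fun Y => g y.1 Y * g y'.1 Y)]
        by_cases hyy : y = y'
        · subst hyy
          rw [if_pos rfl, ← g3 y.1 y.2]
          exact av_congr fun Y => by ring
        · rw [if_neg (fun e => hyy (Sum.inr.inj e))]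
          exact g4 y.1 y.2 y'.1 y'.2 (fun e => hyy (Subtype.ext e)))
  rw [count, Fintype.sum_sum_type] at key
  refine le_trans (add_le_add ?_ ?_) key
  · have e : ∑ y ∈ I, (max (v y) 0) ^ 2 = ∑ y ∈ P, v y ^ 2 := by
      rw [hPdef, Finset.sum_filter]
      refine Finset.sum_congr rfl fun y _ => ?_
      split_ifs with hy
      · rw [max_eq_left hy.le]
      · rw [max_eq_right (not_lt.1 hy)]; norm_num
    rw [e, ← Finset.sum_coe_sort]
    refine Finset.sum_le_sum fun y _ => ?_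
    show v y.1 ^ 2 ≤ (av (fun Y => v Y * h y.1 Y ^ 2)) ^ 2
    refine pow_le_pow_left₀ (hPpos y.1 y.2).le ?_ 2
    calc v y.1 = v y.1 * av (fun Y => h y.1 Y ^ 2) := by rw [h3 y.1 y.2, mul_one]
      _ = av (fun Y => v y.1 * h y.1 Y ^ 2) := (av_mul_left _ _).symm
      _ ≤ av (fun Y => v Y * h y.1 Y ^ 2) := av_mono fun Y => by
        rcases lt_or_ge (v Y) (v y.1) with hlt | hge
        · rw [h1 y.1 y.2 Y hlt]; simp
        · exact mul_le_mul_of_nonneg_right hge (sq_nonneg _)
  · have e : ∑ y ∈ I, (max (w y) 0) ^ 2 = ∑ y ∈ Q, w y ^ 2 := by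
      rw [hQdef, Finset.sum_filter]
      refine Finset.sum_congr rfl fun y _ => ?_
      split_ifs with hy
      · rw [max_eq_left hy.le]
      · rw [max_eq_right (not_lt.1 hy)]; norm_num
    show ∑ y ∈ I, (max (w y) 0) ^ 2 ≤ _
    rw [e, ← Finset.sum_coe_sort]
    refine Finset.sum_le_sum fun y _ => ?_
    show w y.1 ^ 2 ≤ (av (fun Y => v Y * g y.1 Yᶜ ^ 2)) ^ 2
    have hle : w y.1 ≤ - av (fun Y => v Y * g y.1 Yᶜ ^ 2) := by
      have e1 : - av (fun Y => v Y * g y.1 Yᶜ ^ 2) = av (fun Y => w Y * g y.1 Y ^ 2) := by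
        rw [← av_neg, ← av_compl]
        refine av_congr fun Y => ?_
        simp only [hw, compl_compl]
        ring
      rw [e1]
      calc w y.1 = w y.1 * av (fun Y => g y.1 Y ^ 2) := by rw [g3 y.1 y.2, mul_one]
        _ = av (fun Y => w y.1 * g y.1 Y ^ 2) := (av_mul_left _ _).symm
        _ ≤ av (fun Y => w Y * g y.1 Y ^ 2) := av_mono fun Y => by
          rcases lt_or_ge (w Y) (w y.1) with hlt | hge
          · rw [g1 y.1 y.2 Y hlt]; simp
          · exact mul_le_mul_of_nonneg_right hge (sq_nonneg _)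
    calc w y.1 ^ 2 ≤ (- av (fun Y => v Y * g y.1 Yᶜ ^ 2)) ^ 2 :=
          pow_le_pow_left₀ (hQpos y.1 y.2).le hle 2
      _ = _ := by ring

end

/-- The core inequality with the Fourier-Walsh coefficients `fw`. -/
theorem core {n : ℕ} (v : Finset (Fin n) → ℝ) (hv : Monotone v) (I : Finset (Finset (Fin n)))
    (hI : ∀ A ∈ I, ∀ B, B ⊆ A → B ∈ I) :
    ∑ B ∈ I, (max (v B) 0) ^ 2 + ∑ B ∈ I, (max (- v Bᶜ) 0) ^ 2 ≤
      ∑ T, fw v T ^ 2 * ((I.filter (fun B => symmDiff B T ∈ I)).card : ℝ) := by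
  have h := core_hat I (fun A B hAB hB => hI B hB A hAB) v hv
  simpa only [fw_sq] using h

end Pool.Agent.H61.Chv
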