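import Pool.Agent.H61.Chv.HS

/-!
# Adapted orthonormal families

`exists_family`: for a down-closed family `I`, a monotone `v` and `P ⊆ I` there are orthonormal
functions `h y`, `y ∈ P`, with Fourier support in `{S : Sᶜ ∈ I}` and `h y` supported on
`{Y : v y ≤ v Y}`.
-/

set_option autoImplicit false
set_option linter.unusedSectionVars false

open Finset

namespace Pool.Agent.H61.Chv

open Pool.Agent.H60.Flow

variable {ι : Type*} [Fintype ι] [DecidableEq ι]

/-- The vector `1[B ⊆ Y] * ch Bᶜ Y`. -/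
def xv (B Y : Finset ι) : ℝ := (if B ⊆ Y then 1 else 0) * ch Bᶜ Y

theorem ch_ne_zero (T A : Finset ι) : ch T A ≠ 0 := by
  intro h
  have := ch_sq T A
  rw [h] at this
  norm_num at this

theorem xv_self (B : Finset ι) : xv B B ≠ 0 := by
  unfold xv
  simp only [Finset.Subset.refl, if_true, one_mul]
  exact ch_ne_zero _ _

theorem xv_eq_zero {B Y : Finset ι} (h : ¬ B ⊆ Y) : xv B Y = 0 := by
  unfold xv
  rw [if_neg h, zero_mul]

theorem hat_xv {B S : Finset ι} (h : ¬ Sᶜ ⊆ B) : hat (xv B) S = 0 := by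
  obtain ⟨i, hi, hB⟩ := Finset.not_subset.1 h
  rw [Finset.mem_compl] at hi
  have e : hat (xv B) S = hat (fun Y : Finset ι => if B ⊆ Y then (1 : ℝ) else 0)
      (symmDiff S Bᶜ) := by
    rw [← hat_mul_ch]
    rfl
  rw [e]
  have hD : Dep B (fun Y : Finset ι => if B ⊆ Y then (1 : ℝ) else 0) := by
    intro j hj A
    have : B ⊆ insert j A ↔ B ⊆ A := by
      constructor
      · intro hBA x hx
        rcases Finset.mem_insert.1 (hBA hx) with h1 | h1
        · subst h1; exact absurd hx hj
        · exact h1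
      · intro hBA
        exact hBA.trans (Finset.subset_insert j A)
    simp only [this]
  refine hD.hat_eq_zero (j := i) ?_ hB
  rw [Finset.mem_symmDiff]
  exact Or.inr ⟨Finset.mem_compl.2 hB, hi⟩

/-- Independence of the vectors `xv B`. -/
theorem xv_indep (t : Finset (Finset ι)) (d : Finset ι → ℝ) (b0 : Finset ι) (hb0 : b0 ∈ t)
    (hd : d b0 ≠ 0) : ∃ Y, ∑ b ∈ t, d b * xv b Y ≠ 0 := by
  have hne : (t.filter (fun b => d b ≠ 0)).Nonempty := ⟨b0, Finset.mem_filter.2 ⟨hb0, hd⟩⟩
  obtain ⟨m, hm, hmin⟩ := Finset.exists_min_image (t.filter (fun b => d b ≠ 0)) Finset.card hne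
  rw [Finset.mem_filter] at hm
  refine ⟨m, ?_⟩
  rw [Finset.sum_eq_single_of_mem m hm.1]
  · exact mul_ne_zero hm.2 (xv_self m)
  · intro b hb hbm
    by_cases hdb : d b = 0
    · rw [hdb, zero_mul]
    · have h1 := hmin b (Finset.mem_filter.2 ⟨hb, hdb⟩)
      have h2 : ¬ b ⊆ m := fun hs => hbm (Finset.eq_of_subset_of_card_le hs h1)
      rw [xv_eq_zero h2, mul_zero]

theorem av_pos {f : Finset ι → ℝ} (h : ∀ A, 0 ≤ f A) (Y : Finset ι) (hY : 0 < f Y) : 0 < av f := by
  unfold av
  refine div_pos ?_ card_pos'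
  exact Finset.sum_pos' (fun A _ => h A) ⟨Y, Finset.mem_univ Y, hY⟩

theorem av_sum {κ : Type*} (t : Finset κ) (f : κ → Finset ι → ℝ) :
    av (fun Y => ∑ k ∈ t, f k Y) = ∑ k ∈ t, av (f k) := by
  unfold av
  rw [Finset.sum_comm, Finset.sum_div]

/-- A unit vector in the span of `xv b`, `b ∈ t`, orthogonal to fewer than `t.card` vectors. -/
theorem exists_unit (t s : Finset (Finset ι)) (hts : s.card < t.card)
    (h : Finset ι → Finset ι → ℝ) : ∃ d : Finset ι → ℝ,
      av (fun Y => (∑ b ∈ t, d b * xv b Y) ^ 2) = 1 ∧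
      ∀ y ∈ s, av (fun Y => (∑ b ∈ t, d b * xv b Y) * h y Y) = 0 := by
  classical
  let M : Matrix s t ℝ := fun y b => av (fun Y => xv b.1 Y * h y.1 Y)
  have hk : LinearMap.ker (Matrix.mulVecLin M) ≠ ⊥ := by
    apply LinearMap.ker_ne_bot_of_finrank_lt
    simpa using hts
  obtain ⟨d0, hd0, hne⟩ := (Submodule.ne_bot_iff _).1 hk
  rw [LinearMap.mem_ker] at hd0
  let d1 : Finset ι → ℝ := fun b => if hb : b ∈ t then d0 ⟨b, hb⟩ else 0
  have hd1 : ∀ b : t, d1 b.1 = d0 b := by
    intro b
    simp [d1, b.2]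
  have hex : ∃ b : t, d0 b ≠ 0 := by
    by_contra hc
    push Not at hc
    exact hne (funext hc)
  obtain ⟨b0, hb0⟩ := hex
  obtain ⟨Y0, hY0⟩ := xv_indep t d1 b0.1 b0.2 (by rw [hd1]; exact hb0)
  have hN : 0 < av (fun Y => (∑ b ∈ t, d1 b * xv b Y) ^ 2) :=
    av_pos (fun A => sq_nonneg _) Y0 (by positivity)
  have horth : ∀ y ∈ s, av (fun Y => (∑ b ∈ t, d1 b * xv b Y) * h y Y) = 0 := by
    intro y hy
    have e1 : av (fun Y => (∑ b ∈ t, d1 b * xv b Y) * h y Y) =
        ∑ b ∈ t, av (fun Y => xv b Y * h y Y) * d1 b := by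
      simp only [Finset.sum_mul]
      rw [av_sum]
      refine Finset.sum_congr rfl fun b _ => ?_
      rw [← av_mul_right]
      exact av_congr fun Y => by ring
    rw [e1]
    have e2 := congrFun hd0 ⟨y, hy⟩
    rw [Matrix.mulVecLin_apply] at e2
    unfold Matrix.mulVec dotProduct at e2
    rw [← Finset.sum_coe_sort]
    simp only [hd1]
    exact e2
  set N := av (fun Y => (∑ b ∈ t, d1 b * xv b Y) ^ 2) with hNdef
  refine ⟨fun b => (Real.sqrt N)⁻¹ * d1 b, ?_, ?_⟩
  · have e : ∀ Y : Finset ι, (∑ b ∈ t, (Real.sqrt N)⁻¹ * d1 b * xv b Y) ^ 2 =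
        N⁻¹ * (∑ b ∈ t, d1 b * xv b Y) ^ 2 := by
      intro Y
      have : ∑ b ∈ t, (Real.sqrt N)⁻¹ * d1 b * xv b Y = (Real.sqrt N)⁻¹ * ∑ b ∈ t, d1 b * xv b Y := by
        rw [Finset.mul_sum]
        exact Finset.sum_congr rfl fun b _ => by ring
      rw [this, mul_pow, inv_pow, Real.sq_sqrt hN.le]
    rw [av_congr e, av_mul_left, ← hNdef, inv_mul_cancel₀ hN.ne']
  · intro y hy
    have e : ∀ Y : Finset ι, (∑ b ∈ t, (Real.sqrt N)⁻¹ * d1 b * xv b Y) * h y Y =
        (Real.sqrt N)⁻¹ * ((∑ b ∈ t, d1 b * xv b Y) * h y Y) := by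
      intro Y
      have : ∑ b ∈ t, (Real.sqrt N)⁻¹ * d1 b * xv b Y = (Real.sqrt N)⁻¹ * ∑ b ∈ t, d1 b * xv b Y := by
        rw [Finset.mul_sum]
        exact Finset.sum_congr rfl fun b _ => by ring
      rw [this]; ring
    rw [av_congr e, av_mul_left, horth y hy, mul_zero]

theorem hat_sum {κ : Type*} (t : Finset κ) (f : κ → Finset ι → ℝ) (S : Finset ι) :
    hat (fun Y => ∑ k ∈ t, f k Y) S = ∑ k ∈ t, hat (f k) S := by
  unfold hat
  rw [← av_sum]
  exact av_congr fun Y => by rw [Finset.sum_mul]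

/-- The adapted orthonormal family. -/
theorem exists_family (I : Finset (Finset ι)) (hI : ∀ A B, A ⊆ B → B ∈ I → A ∈ I)
    (v : Finset ι → ℝ) (hv : Monotone v) (P : Finset (Finset ι)) (hP : P ⊆ I) :
    ∃ h : Finset ι → Finset ι → ℝ, (∀ y ∈ P, ∀ Y, v Y < v y → h y Y = 0) ∧
      (∀ y ∈ P, ∀ S, Sᶜ ∉ I → hat (h y) S = 0) ∧
      (∀ y ∈ P, av (fun Y => h y Y ^ 2) = 1) ∧
      (∀ y ∈ P, ∀ y' ∈ P, y ≠ y' → av (fun Y => h y Y * h y' Y) = 0) := by
  classical
  induction P using Finset.induction_on_min_value v with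
  | empty => exact ⟨fun _ _ => 0, by simp, by simp, by simp, by simp⟩
  | insert a s ha hmin ih =>
    obtain ⟨h, h1, h2, h3, h4⟩ := ih ((Finset.subset_insert a s).trans hP)
    obtain ⟨d, hd1, hd2⟩ := exists_unit (insert a s) s
      (by rw [Finset.card_insert_of_notMem ha]; omega) h
    have hva : ∀ b ∈ insert a s, v a ≤ v b := by
      intro b hb
      rcases Finset.mem_insert.1 hb with rfl | hb
      · exact le_rfl
      · exact hmin b hb
    let g : Finset ι → ℝ := fun Y => ∑ b ∈ insert a s, d b * xv b Y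
    refine ⟨Function.update h a g, ?_, ?_, ?_, ?_⟩
    · intro y hy Y hY
      rcases Finset.mem_insert.1 hy with rfl | hys
      · rw [Function.update_self]
        show ∑ b ∈ insert y s, d b * xv b Y = 0
        refine Finset.sum_eq_zero fun b hb => ?_
        have : ¬ b ⊆ Y := fun hs => absurd ((hva b hb).trans (hv hs)) (not_le.2 hY)
        rw [xv_eq_zero this, mul_zero]
      · have hya : y ≠ a := fun e => ha (e ▸ hys)
        rw [Function.update_of_ne hya]
        exact h1 y hys Y hY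
    · intro y hy S hS
      rcases Finset.mem_insert.1 hy with rfl | hys
      · rw [Function.update_self]
        show hat (fun Y => ∑ b ∈ insert y s, d b * xv b Y) S = 0
        rw [hat_sum]
        refine Finset.sum_eq_zero fun b hb => ?_
        rw [hat_mul_left, hat_xv, mul_zero]
        exact fun hs => hS (hI _ _ hs (hP hb))
      · have hya : y ≠ a := fun e => ha (e ▸ hys)
        rw [Function.update_of_ne hya]
        exact h2 y hys S hS
    · intro y hy
      rcases Finset.mem_insert.1 hy with rfl | hys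
      · rw [Function.update_self]
        exact hd1
      · have hya : y ≠ a := fun e => ha (e ▸ hys)
        rw [Function.update_of_ne hya]
        exact h3 y hys
    · intro y hy y' hy' hyy'
      rcases Finset.mem_insert.1 hy with rfl | hys
      · rcases Finset.mem_insert.1 hy' with rfl | hys'
        · exact absurd rfl hyy'
        · rw [Function.update_self, Function.update_of_ne hyy'.symm]
          exact hd2 y' hys'
      · have hya : y ≠ a := fun e => ha (e ▸ hys)
        rcases Finset.mem_insert.1 hy' with rfl | hys'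
        · rw [Function.update_self, Function.update_of_ne hya]
          rw [← hd2 y hys]
          exact av_congr fun Y => by show h y Y * g Y = g Y * h y Y; ring
        · have hya' : y' ≠ a := fun e => ha (e ▸ hys')
          rw [Function.update_of_ne hya, Function.update_of_ne hya']
          exact h4 y hys y' hys' hyy'

end Pool.Agent.H61.Chv
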